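import Mathlib

/-!
# Quadratic residue Hadamard designs have defining sets of at most (q-1)/2 blocks

For every prime power `q` with `q % 4 = 3` and `q ≥ 7` the quadratic residue design `D_q`
has a defining set consisting of at most `(q-1)/2` blocks, so `mu_q ≤ 1/2`.

Idea.  Let `n = (q+1)/4`.  If `X` is a further block of a completion, then
`g a = |X ∩ (Q + a)| - lam` is an integer function which vanishes at the chosen translates and
whose convolution with `Q` is `n * 1_X`.  For every prime `p ∣ n` the Fourier transform of
`g mod p` is supported on the squares or on the non squares.  We choose the translates to be the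
lexicographic standard monomials of the set of squares; they form an information set
simultaneously for all primes `p ∣ n`.  So `n ∣ g`, and the second moment shows that `g / n` is
a delta function, that is, `X` is a translate of `Q`.
-/

set_option autoImplicit false

namespace Pool.Agent.Results.MP_616659_co.Main

open Finset

universe u

/-! ### Definitions -/

/-- A `t-(v,k,lam)` design on the point set `V` (`v = |V|`), given by its collection of blocks
`E` (a multiset, so repeated blocks are allowed): all blocks have size `k`, and every `t`-subset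
of points lies in exactly `lam` blocks. -/
def IsDesign {V : Type u} [Fintype V] [DecidableEq V] (t k lam : ℕ)
    (E : Multiset (Finset V)) : Prop :=
  (∀ B ∈ E, B.card = k) ∧
    ∀ T : Finset V, T.card = t → (E.filter (fun B => T ⊆ B)).card = lam

/-- `S` is a defining set of the `t-(v,k,lam)` design `D`: `S` is a subcollection of `D` and `D`
is the only `t-(v,k,lam)` design on the same point set whose block collection contains `S`. -/
def IsDefiningSet {V : Type u} [Fintype V] [DecidableEq V] (t k lam : ℕ)
    (D S : Multiset (Finset V)) : Prop :=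
  S ≤ D ∧ ∀ E : Multiset (Finset V), IsDesign t k lam E → S ≤ E → E = D

/-- The set of nonzero squares of the finite field `F`. -/
def nzSquares (F : Type u) [Field F] [Fintype F] [DecidableEq F] : Finset F :=
  ((univ : Finset F).filter (fun x => x ≠ 0)).image (fun x => x * x)

/-- The block `Q + a`. -/
def qrBlock {F : Type u} [Field F] [Fintype F] [DecidableEq F] (a : F) : Finset F :=
  (nzSquares F).image (fun x => x + a)

/-- The quadratic residue design `D_q`: the blocks `Q + a`, one for each `a`. -/
def qrDesign (F : Type u) [Field F] [Fintype F] [DecidableEq F] : Multiset (Finset F) :=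
  (univ : Finset F).val.map qrBlock

/-- The smallest number of blocks in a defining set of `D_q` (with respect to the parameters
`2-(q, (q-1)/2, (q-3)/4)`), divided by the number `q` of blocks. -/
noncomputable def mu (F : Type u) [Field F] [Fintype F] [DecidableEq F] : ℝ :=
  (sInf {m : ℕ | ∃ S : Multiset (Finset F),
    IsDefiningSet 2 ((Fintype.card F - 1) / 2) ((Fintype.card F - 3) / 4) (qrDesign F) S ∧
      Multiset.card S = m} : ℕ) / (Fintype.card F : ℝ)

/-! ### A family of exponents independent of the field -/

/-- Vandermonde on a finset. -/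
lemma vander_finset {α K : Type} [DecidableEq α] [Field K] (T : Finset α) (e : α → K)
    (he : Function.Injective e) (x : α → K)
    (h : ∀ i < T.card, ∑ t ∈ T, x t * e t ^ i = 0) : ∀ t ∈ T, x t = 0 := by
  classical
  obtain ⟨n, hn⟩ : ∃ n, T.card = n := ⟨_, rfl⟩
  let eq := T.equivFinOfCardEq hn
  let f : Fin n → K := fun i => e (eq.symm i)
  let v : Fin n → K := fun i => x (eq.symm i)
  have hf : Function.Injective f := by
    intro i j hij
    have := he hij
    exact eq.symm.injective (Subtype.ext this)
  have hv : v = 0 := by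
    apply Matrix.eq_zero_of_forall_pow_sum_mul_pow_eq_zero hf
    intro i
    have := h i (by rw [hn]; exact i.2)
    rw [← this]
    rw [← Finset.sum_coe_sort T (fun t => x t * e t ^ (i : ℕ))]
    exact Fintype.sum_equiv eq.symm _ _ (fun j => rfl)
  intro t ht
  have := congrFun hv (eq ⟨t, ht⟩)
  simpa [v] using this

/-- The field independent family of exponents (lexicographic standard monomials). -/
lemma lex_family (α : Type) [Fintype α] [DecidableEq α] (m : ℕ) :
    ∀ Y : Finset (Fin m → α), ∃ A : Finset (Fin m → ℕ), A.card ≤ Y.card ∧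
      ∀ (K : Type) [Field K] (e : α → K), Function.Injective e →
        ∀ c : (Fin m → α) → K,
          (∀ a ∈ A, ∑ y ∈ Y, c y * ∏ i, e (y i) ^ a i = 0) → ∀ y ∈ Y, c y = 0 := by
  classical
  induction m with
  | zero =>
    intro Y
    by_cases hY : Y = ∅
    · exact ⟨∅, by simp, by intro K _ e he c h y hy; simp [hY] at hy⟩
    · refine ⟨{fun _ => 0}, ?_, ?_⟩
      · rw [Finset.card_singleton]
        exact Finset.card_pos.mpr (Finset.nonempty_iff_ne_empty.mpr hY)
      · intro K _ e he c h y hy
        have h0 := h _ (Finset.mem_singleton_self _)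
        have hYs : Y = {y} := by
          ext z
          constructor
          · intro hz; rw [Finset.mem_singleton]; exact Subsingleton.elim _ _
          · intro hz; rw [Finset.mem_singleton] at hz; rw [hz]; exact hy
        rw [hYs] at h0
        simpa using h0
  | succ m ih =>
    intro Y
    -- fibres
    let T : (Fin m → α) → Finset α := fun y' => Finset.univ.filter (fun t => Fin.cons t y' ∈ Y)
    let Yj : ℕ → Finset (Fin m → α) := fun j => Finset.univ.filter (fun y' => j < (T y').card)
    choose A hAcard hA using fun j => ih (Yj j)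
    let N := Fintype.card α
    refine ⟨(Finset.range N).biUnion (fun j => (A j).image (fun a' => Fin.cons j a')), ?_, ?_⟩
    · calc ((Finset.range N).biUnion (fun j => (A j).image (fun a' : Fin m → ℕ => (Fin.cons j a' : Fin (m+1) → ℕ)))).card
          ≤ ∑ j ∈ Finset.range N, ((A j).image (fun a' : Fin m → ℕ => (Fin.cons j a' : Fin (m+1) → ℕ))).card :=
            Finset.card_biUnion_le
        _ ≤ ∑ j ∈ Finset.range N, (Yj j).card :=
            Finset.sum_le_sum (fun j _ => Finset.card_image_le.trans (hAcard j))
        _ = ∑ y' : Fin m → α, (T y').card := by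
            simp only [Yj, Finset.card_filter]
            rw [Finset.sum_comm]
            apply Finset.sum_congr rfl
            intro y' _
            have hle : (T y').card ≤ N := Finset.card_le_univ _
            rw [← Finset.card_filter]
            have : (Finset.range N).filter (fun i => i < (T y').card) = Finset.range (T y').card := by
              ext i
              simp only [Finset.mem_filter, Finset.mem_range]
              omega
            rw [this, Finset.card_range]
        _ = Y.card := by
            have h1 : Y.card = ∑ y' : Fin m → α, (Y.filter (fun y => Fin.tail y = y')).card := by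
              exact Finset.card_eq_sum_card_fiberwise (fun y _ => Finset.mem_univ _)
            rw [h1]
            apply Finset.sum_congr rfl
            intro y' _
            apply Finset.card_bij (fun t _ => (Fin.cons t y' : Fin (m+1) → α))
            · intro t ht
              simp only [T, Finset.mem_filter, Finset.mem_univ, true_and] at ht
              simp only [Finset.mem_filter]
              exact ⟨ht, Fin.tail_cons _ _⟩
            · intro t _ t' _ h
              exact (Fin.cons_injective2 h).1
            · intro y hy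
              simp only [Finset.mem_filter] at hy
              refine ⟨y 0, ?_, ?_⟩
              · simp only [T, Finset.mem_filter, Finset.mem_univ, true_and]
                rw [← hy.2, Fin.cons_self_tail]; exact hy.1
              · rw [← hy.2, Fin.cons_self_tail]
    · intro K _ e he c h
      -- the partial sums
      let d : ℕ → (Fin m → α) → K := fun j y' => ∑ t ∈ T y', c (Fin.cons t y') * e t ^ j
      have hsum : ∀ (j : ℕ) (a' : Fin m → ℕ),
          ∑ y ∈ Y, c y * ∏ i, e (y i) ^ (Fin.cons j a' : Fin (m+1) → ℕ) i
            = ∑ y' : Fin m → α, d j y' * ∏ i, e (y' i) ^ a' i := by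
        intro j a'
        rw [← Finset.sum_fiberwise_of_maps_to (s := Y) (t := Finset.univ) (g := Fin.tail)
          (fun y _ => Finset.mem_univ _)]
        apply Finset.sum_congr rfl
        intro y' _
        simp only [d, Finset.sum_mul]
        symm
        apply Finset.sum_bij (fun t _ => (Fin.cons t y' : Fin (m+1) → α))
        · intro t ht
          simp only [T, Finset.mem_filter, Finset.mem_univ, true_and] at ht
          simp only [Finset.mem_filter]
          exact ⟨ht, Fin.tail_cons _ _⟩
        · intro t _ t' _ h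
          exact (Fin.cons_injective2 h).1
        · intro y hy
          simp only [Finset.mem_filter] at hy
          refine ⟨y 0, ?_, ?_⟩
          · simp only [T, Finset.mem_filter, Finset.mem_univ, true_and]
            rw [← hy.2, Fin.cons_self_tail]; exact hy.1
          · rw [← hy.2, Fin.cons_self_tail]
        · intro t ht
          rw [Fin.prod_univ_succ]
          simp only [Fin.cons_zero, Fin.cons_succ]
          ring
      have hd : ∀ j, j ≤ N → ∀ i < j, ∀ y', d i y' = 0 := by
        intro j
        induction j with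
        | zero => intro _ i hi; omega
        | succ j ihj =>
          intro hj
          have ihj' := ihj (by omega)
          have hsmall : ∀ y', (T y').card ≤ j → d j y' = 0 := by
            intro y' hy'
            have hc : ∀ t ∈ T y', c (Fin.cons t y') = 0 :=
              vander_finset (T y') e he (fun t => c (Fin.cons t y'))
                (fun i hi => ihj' i (by omega) y')
            apply Finset.sum_eq_zero
            intro t ht
            rw [hc t ht, zero_mul]
          have hmain : ∀ y' ∈ Yj j, d j y' = 0 := by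
            apply hA j K e he (d j)
            intro a' ha'
            have h1 := h (Fin.cons j a') (by
              rw [Finset.mem_biUnion]
              exact ⟨j, Finset.mem_range.mpr (by omega), Finset.mem_image_of_mem _ ha'⟩)
            rw [hsum j a'] at h1
            rw [← h1]
            apply Finset.sum_subset (Finset.subset_univ _)
            intro y' _ hy'
            have : (T y').card ≤ j := by
              by_contra hcon
              exact hy' (by simp only [Yj, Finset.mem_filter, Finset.mem_univ, true_and]; omega)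
            rw [hsmall y' this, zero_mul]
          intro i hi y'
          rcases Nat.lt_succ_iff_lt_or_eq.mp hi with hi | hi
          · exact ihj' i hi y'
          · subst hi
            by_cases hy' : y' ∈ Yj i
            · exact hmain y' hy'
            · apply hsmall
              by_contra hcon
              exact hy' (by simp only [Yj, Finset.mem_filter, Finset.mem_univ, true_and]; omega)
      intro y hy
      have hc : ∀ t ∈ T (Fin.tail y), c (Fin.cons t (Fin.tail y)) = 0 :=
        vander_finset (T (Fin.tail y)) e he (fun t => c (Fin.cons t (Fin.tail y)))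
          (fun i hi => hd N le_rfl i (lt_of_lt_of_le hi (Finset.card_le_univ _)) _)
      have := hc (y 0) (by
        simp only [T, Finset.mem_filter, Finset.mem_univ, true_and]
        rw [Fin.cons_self_tail]; exact hy)
      rwa [Fin.cons_self_tail] at this

lemma addChar_sum {A M ι : Type*} [AddCommMonoid A] [CommMonoid M] (e : AddChar A M)
    (s : Finset ι) (f : ι → A) : e (∑ i ∈ s, f i) = ∏ i ∈ s, e (f i) := by
  classical
  induction s using Finset.induction_on with
  | empty => simp
  | insert a s ha ih => rw [sum_insert ha, prod_insert ha, AddChar.map_add_eq_mul, ih]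

/-- An information set that works for all fields at once. -/
lemma exists_infoset (F : Type u) [Field F] [Fintype F] [DecidableEq F] (l : ℕ)
    [Fact l.Prime] [Algebra (ZMod l) F] (Y : Finset F) :
    ∃ A : Finset F, A.card ≤ Y.card ∧
      ∀ (K : Type) [Field K] (e : AddChar (ZMod l) K), Function.Injective e →
        ∀ c : F → K, (∀ a ∈ A, ∑ y ∈ Y, c y * e (Algebra.trace (ZMod l) F (y * a)) = 0) →
          ∀ y ∈ Y, c y = 0 := by
  classical
  let m := Fintype.card F
  let b : Fin m ≃ F := (Fintype.equivFin F).symm
  let tau : F → (Fin m → ZMod l) := fun y i => Algebra.trace (ZMod l) F (y * b i)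
  have htau : Function.Injective tau := by
    intro y y' hyy
    by_contra hne
    have hnd : ∀ z : F, z ≠ 0 → ∃ w : F, Algebra.trace (ZMod l) F (z * w) ≠ 0 := by
      intro z hz
      by_contra hcon
      push Not at hcon
      have h1 := (traceForm_nondegenerate (ZMod l) F).1 z (fun w => by
        rw [Algebra.traceForm_apply]; exact hcon w)
      exact hz h1
    obtain ⟨w, hw⟩ := hnd (y - y') (sub_ne_zero.mpr hne)
    apply hw
    have h2 := congrFun hyy (b.symm w)
    simp only [tau, Equiv.apply_symm_apply] at h2
    rw [sub_mul, map_sub, h2, sub_self]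
  obtain ⟨A0, hA0card, hA0⟩ := lex_family (ZMod l) m (Y.image tau)
  refine ⟨A0.image (fun a => ∑ i, a i • b i), ?_, ?_⟩
  · exact card_image_le.trans (hA0card.trans card_image_le)
  · intro K _ e he c hc y hy
    have key := hA0 K e he (fun z => c (Function.invFun tau z)) (by
      intro a ha
      have h1 := hc _ (mem_image_of_mem _ ha)
      rw [sum_image (fun x _ y _ h => htau h)]
      rw [← h1]
      apply sum_congr rfl
      intro z hz
      congr 1
      · rw [Function.leftInverse_invFun htau z]
      · rw [mul_sum, map_sum, addChar_sum]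
        apply prod_congr rfl
        intro i _
        simp only [tau]
        rw [mul_smul_comm, map_nsmul, AddChar.map_nsmul_eq_pow])
    have := key (tau y) (mem_image_of_mem _ hy)
    rwa [Function.leftInverse_invFun htau y] at this

/-! ### Squares in a finite field of order 3 mod 4 -/

section
variable {F : Type u} [Field F] [Fintype F] [DecidableEq F]

lemma mem_nz {y : F} : y ∈ nzSquares F ↔ ∃ x : F, x ≠ 0 ∧ x * x = y := by
  simp [nzSquares]

lemma nz_ne_zero {y : F} (h : y ∈ nzSquares F) : y ≠ 0 := by
  obtain ⟨x, hx, rfl⟩ := mem_nz.mp h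
  exact mul_ne_zero hx hx

lemma nz_mul {y z : F} (hy : y ∈ nzSquares F) (hz : z ∈ nzSquares F) : y * z ∈ nzSquares F := by
  obtain ⟨x, hx, rfl⟩ := mem_nz.mp hy
  obtain ⟨w, hw, rfl⟩ := mem_nz.mp hz
  exact mem_nz.mpr ⟨x * w, mul_ne_zero hx hw, by ring⟩

lemma nz_inv {y : F} (hy : y ∈ nzSquares F) : y⁻¹ ∈ nzSquares F := by
  obtain ⟨x, hx, rfl⟩ := mem_nz.mp hy
  exact mem_nz.mpr ⟨x⁻¹, inv_ne_zero hx, by rw [mul_inv]⟩

variable (hq : Fintype.card F % 4 = 3)
include hq

lemma neg_one_not_sq : (-1 : F) ∉ nzSquares F := by
  intro h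
  obtain ⟨x, _, hxx⟩ := mem_nz.mp h
  have h1 : IsSquare (-1 : F) := ⟨x, hxx.symm⟩
  exact (FiniteField.isSquare_neg_one_iff.mp h1) hq

lemma char_ne_two : ringChar F ≠ 2 := by
  intro h
  have := FiniteField.even_card_iff_char_two.mp h
  omega

/-- every nonzero element is a nonzero square or minus one, exclusively -/
lemma sq_or_neg {y : F} (hy : y ≠ 0) : y ∈ nzSquares F ∨ -y ∈ nzSquares F := by
  have h1 : IsSquare y ∨ IsSquare (-y) := by
    by_contra hcon
    push Not at hcon
    obtain ⟨ha, hb⟩ := hcon
    have hn1 : ¬ IsSquare (-1 : F) := fun h => (FiniteField.isSquare_neg_one_iff.mp h) hq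
    have h2 := FiniteField.isSquare_iff (char_ne_two hq) hy
    have h3 := FiniteField.isSquare_iff (char_ne_two hq) (neg_ne_zero.mpr (one_ne_zero (α := F)))
    have h4 := FiniteField.isSquare_iff (char_ne_two hq) (neg_ne_zero.mpr hy)
    have d1 := FiniteField.pow_dichotomy (char_ne_two hq) hy
    have d2 := FiniteField.pow_dichotomy (char_ne_two hq) (neg_ne_zero.mpr (one_ne_zero (α := F)))
    have e1 : y ^ (Fintype.card F / 2) = -1 := d1.resolve_left (fun h => ha (h2.mpr h))
    have e2 : (-1 : F) ^ (Fintype.card F / 2) = -1 := d2.resolve_left (fun h => hn1 (h3.mpr h))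
    apply hb
    rw [h4, neg_eq_neg_one_mul, mul_pow, e1, e2]
    ring
  rcases h1 with ⟨r, hr⟩ | ⟨r, hr⟩
  · left
    refine mem_nz.mpr ⟨r, ?_, hr.symm⟩
    rintro rfl; simp at hr; exact hy hr
  · right
    refine mem_nz.mpr ⟨r, ?_, hr.symm⟩
    rintro rfl; simp at hr; exact hy hr

lemma not_both {y : F} (h1 : y ∈ nzSquares F) (h2 : -y ∈ nzSquares F) : False := by
  apply neg_one_not_sq hq
  have := nz_mul h2 (nz_inv h1)
  rwa [neg_mul, mul_inv_cancel₀ (nz_ne_zero h1)] at this

lemma sum_split {K : Type*} [AddCommMonoid K] (f : F → K) :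
    ∑ x, f x = f 0 + (∑ x ∈ nzSquares F, f x + ∑ x ∈ nzSquares F, f (-x)) := by
  have h1 : (univ : Finset F) = insert 0 (nzSquares F ∪ (nzSquares F).image (fun x => -x)) := by
    ext x
    simp only [mem_univ, mem_insert, mem_union, mem_image, true_iff]
    by_cases hx : x = 0
    · left; exact hx
    · right
      rcases sq_or_neg hq hx with h | h
      · left; exact h
      · right; exact ⟨-x, h, by simp⟩
  rw [h1, sum_insert, sum_union, sum_image]
  · intro x _ y _ h; exact neg_injective h
  · rw [disjoint_left]
    intro x hx hx'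
    obtain ⟨z, hz, rfl⟩ := mem_image.mp hx'
    exact not_both hq hz hx
  · simp only [mem_union, mem_image, not_or]
    refine ⟨fun h => nz_ne_zero h rfl, ?_⟩
    rintro ⟨z, hz, h⟩
    exact nz_ne_zero hz (neg_eq_zero.mp h)

lemma card_nz : 2 * (nzSquares F).card + 1 = Fintype.card F := by
  have h := sum_split (F := F) hq (fun _ => (1 : ℕ))
  simp only [sum_const, smul_eq_mul, mul_one, card_univ] at h
  omega

/-- number of representations as a difference of squares -/
lemma diff_count (d : F) (hd : d ≠ 0) :
    4 * ((nzSquares F ×ˢ nzSquares F).filter (fun p => p.1 - p.2 = d)).card + 3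
      = Fintype.card F := by
  let Q := nzSquares F
  let N : F → ℕ := fun d => ((Q ×ˢ Q).filter (fun p => p.1 - p.2 = d)).card
  have hneg : ∀ d, N (-d) = N d := by
    intro d
    apply card_bij (fun p _ => (p.2, p.1))
    · intro p hp
      simp only [mem_filter, mem_product] at hp ⊢
      refine ⟨⟨hp.1.2, hp.1.1⟩, ?_⟩
      rw [← neg_sub, hp.2, neg_neg]
    · intro p _ p' _ h
      simp only [Prod.mk.injEq] at h
      exact Prod.ext h.2 h.1
    · intro p hp
      simp only [mem_filter, mem_product] at hp
      refine ⟨(p.2, p.1), ?_, rfl⟩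
      simp only [mem_filter, mem_product]
      refine ⟨⟨hp.1.2, hp.1.1⟩, ?_⟩
      rw [← neg_sub, hp.2]
  have hscale : ∀ c ∈ Q, ∀ d, N (c * d) = N d := by
    intro c hc d
    have hc0 := nz_ne_zero hc
    symm
    apply card_bij (fun p _ => (c * p.1, c * p.2))
    · intro p hp
      simp only [mem_filter, mem_product] at hp ⊢
      refine ⟨⟨nz_mul hc hp.1.1, nz_mul hc hp.1.2⟩, ?_⟩
      rw [← mul_sub, hp.2]
    · intro p _ p' _ h
      simp only [Prod.mk.injEq] at h
      exact Prod.ext (mul_left_cancel₀ hc0 h.1) (mul_left_cancel₀ hc0 h.2)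
    · intro p hp
      simp only [mem_filter, mem_product] at hp
      refine ⟨(c⁻¹ * p.1, c⁻¹ * p.2), ?_, ?_⟩
      · simp only [mem_filter, mem_product]
        refine ⟨⟨nz_mul (nz_inv hc) hp.1.1, nz_mul (nz_inv hc) hp.1.2⟩, ?_⟩
        rw [← mul_sub, hp.2, ← mul_assoc, inv_mul_cancel₀ hc0, one_mul]
      · ext <;> simp only [← mul_assoc, mul_inv_cancel₀ hc0, one_mul]
  have hone : ∀ d, d ≠ 0 → N d = N 1 := by
    intro d hd
    rcases sq_or_neg hq hd with h | h
    · have := hscale d h 1
      rwa [mul_one] at this
    · have := hscale (-d) h 1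
      rw [mul_one, hneg] at this
      exact this
  have h0 : N 0 = Q.card := by
    have : (Q ×ˢ Q).filter (fun p => p.1 - p.2 = 0) = Q.image (fun x => (x, x)) := by
      ext p
      simp only [mem_filter, mem_product, mem_image]
      constructor
      · rintro ⟨⟨h1, h2⟩, h3⟩
        exact ⟨p.1, h1, Prod.ext rfl (sub_eq_zero.mp h3)⟩
      · rintro ⟨x, hx, rfl⟩
        exact ⟨⟨hx, hx⟩, sub_self _⟩
    simp only [N]
    rw [this, card_image_of_injective]
    intro x y h
    exact (Prod.mk.inj h).1
  have htot : ∑ d, N d = Q.card * Q.card := by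
    rw [← card_product]
    exact (card_eq_sum_card_fiberwise (fun p _ => mem_univ _)).symm
  have hsp := sum_split (F := F) hq N
  rw [htot, h0] at hsp
  rw [sum_congr rfl (fun x hx => hone x (nz_ne_zero hx)),
    sum_congr rfl (fun x hx => (hneg x).trans (hone x (nz_ne_zero hx)))] at hsp
  simp only [sum_const, smul_eq_mul] at hsp
  have hk := card_nz (F := F) hq
  have hQ : 0 < Q.card := by
    have : (1 : F) ∈ Q := mem_nz.mpr ⟨1, one_ne_zero, one_mul 1⟩
    exact card_pos.mpr ⟨1, this⟩
  have h2 : Q.card = 1 + 2 * N 1 := by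
    have : Q.card * Q.card = Q.card * (1 + 2 * N 1) := by
      rw [hsp]; ring
    exact Nat.eq_of_mul_eq_mul_left hQ this
  have h3 := hone d hd
  change 4 * N d + 3 = _
  rw [h3]
  change 2 * Q.card + 1 = _ at hk
  omega

end

/-! ### The Fourier argument for one prime -/

section fourier
variable {F : Type u} [Field F] [Fintype F] [DecidableEq F]

/-- The Gauss period at `y`. -/
def eta {K : Type} [Field K] (psi : AddChar F K) (y : F) : K := ∑ s ∈ nzSquares F, psi (y * s)

lemma eta_scale {K : Type} [Field K] (psi : AddChar F K) (c y : F) (hy : y ∈ nzSquares F) :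
    eta psi (c * y) = eta psi c := by
  unfold eta
  apply sum_bij (fun s _ => y * s)
  · intro s hs; exact nz_mul hy hs
  · intro s _ s' _ h; exact mul_left_cancel₀ (nz_ne_zero hy) h
  · intro s hs
    exact ⟨y⁻¹ * s, nz_mul (nz_inv hy) hs, by
      rw [← mul_assoc, mul_inv_cancel₀ (nz_ne_zero hy), one_mul]⟩
  · intro s _; rw [mul_assoc]

variable (hq : Fintype.card F % 4 = 3)
include hq

lemma eta_add {K : Type} [Field K] (psi : AddChar F K) (hpsi : psi ≠ 1) :
    eta psi 1 + eta psi (-1) = -1 := by
  have h1 := sum_split (F := F) hq (fun x => psi x)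
  rw [AddChar.sum_eq_zero_of_ne_one hpsi, AddChar.map_zero_eq_one] at h1
  have h2 : eta psi 1 = ∑ x ∈ nzSquares F, psi x := by simp [eta]
  have h3 : eta psi (-1) = ∑ x ∈ nzSquares F, psi (-x) := by simp [eta]
  rw [h2, h3]
  linear_combination -h1

lemma eta_mul {K : Type} [Field K] (psi : AddChar F K) (hpsi : psi ≠ 1) (lam : ℕ)
    (hlam : Fintype.card F = 4 * lam + 3) :
    eta psi 1 * eta psi (-1) = (lam : K) + 1 := by
  have h2 : eta psi 1 = ∑ x ∈ nzSquares F, psi x := by simp [eta]
  have h3 : eta psi (-1) = ∑ x ∈ nzSquares F, psi (-x) := by simp [eta]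
  have h4 : eta psi 1 * eta psi (-1) = ∑ p ∈ nzSquares F ×ˢ nzSquares F, psi (p.1 - p.2) := by
    rw [h2, h3, sum_mul_sum, ← sum_product']
    apply sum_congr rfl
    intro p _
    rw [← AddChar.map_add_eq_mul, sub_eq_add_neg]
  have h5 : ∑ p ∈ nzSquares F ×ˢ nzSquares F, psi (p.1 - p.2)
      = ∑ d, (((nzSquares F ×ˢ nzSquares F).filter (fun p => p.1 - p.2 = d)).card : K) * psi d := by
    rw [← sum_fiberwise_of_maps_to (s := nzSquares F ×ˢ nzSquares F) (t := univ)
      (g := fun p => p.1 - p.2) (fun p _ => mem_univ _)]
    apply sum_congr rfl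
    intro d _
    rw [sum_congr rfl (g := fun _ => psi d) (fun p hp => by rw [(mem_filter.mp hp).2])]
    rw [sum_const, nsmul_eq_mul]
  have h0 : ((nzSquares F ×ˢ nzSquares F).filter (fun p => p.1 - p.2 = 0)).card
      = (nzSquares F).card := by
    have : (nzSquares F ×ˢ nzSquares F).filter (fun p => p.1 - p.2 = 0)
        = (nzSquares F).image (fun x => (x, x)) := by
      ext p
      simp only [mem_filter, mem_product, mem_image]
      constructor
      · rintro ⟨⟨h1, h2⟩, h3⟩
        exact ⟨p.1, h1, Prod.ext rfl (sub_eq_zero.mp h3)⟩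
      · rintro ⟨x, hx, rfl⟩
        exact ⟨⟨hx, hx⟩, sub_self _⟩
    rw [this, card_image_of_injective]
    intro x y h
    exact (Prod.mk.inj h).1
  have hN : ∀ d : F, d ≠ 0 →
      ((nzSquares F ×ˢ nzSquares F).filter (fun p => p.1 - p.2 = d)).card = lam := by
    intro d hd
    have := diff_count (F := F) hq d hd
    omega
  have hk : (nzSquares F).card = 2 * lam + 1 := by
    have := card_nz (F := F) hq
    omega
  rw [h4, h5, sum_split (F := F) hq]
  rw [h0, AddChar.map_zero_eq_one,
    sum_congr rfl (fun x hx => by rw [hN x (nz_ne_zero hx)]),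
    sum_congr rfl (s₁ := nzSquares F)
      (f := fun x => (((nzSquares F ×ˢ nzSquares F).filter (fun p => p.1 - p.2 = -x)).card : K) * psi (-x))
      (g := fun x => (lam : K) * psi (-x))
      (fun x hx => by rw [hN (-x) (neg_ne_zero.mpr (nz_ne_zero hx))]),
    ← mul_sum, ← mul_sum, ← h2, ← h3, hk]
  have := eta_add hq psi hpsi
  push_cast
  linear_combination (lam : K) * this

/-- Key fact over one field -/
lemma key_field (l : ℕ) [Fact l.Prime] [Algebra (ZMod l) F] (A : Finset F)
    (lam : ℕ) (hlam : Fintype.card F = 4 * lam + 3)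
    (K : Type) [Field K]
    (hA : ∀ (e : AddChar (ZMod l) K), Function.Injective e →
        ∀ c : F → K, (∀ a ∈ A, ∑ y ∈ nzSquares F, c y * e (Algebra.trace (ZMod l) F (y * a)) = 0) →
          ∀ y ∈ nzSquares F, c y = 0)
    (hK : (lam : K) + 1 = 0)
    (e : AddChar (ZMod l) K) (heinj : Function.Injective e)
    (H : F → K) (hH0 : ∀ a ∈ A, H a = 0)
    (hHsum : ∀ t, ∑ s ∈ nzSquares F, H (t - s) = 0) : ∀ a, H a = 0 := by
  classical
  have he1 : ∀ a, e a = 1 → a = 0 := by
    intro a ha
    apply heinj
    rw [ha, AddChar.map_zero_eq_one]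
  have heinj' : Function.Injective (e⁻¹ : AddChar (ZMod l) K) := by
    intro a b hab
    rw [AddChar.inv_apply, AddChar.inv_apply] at hab
    exact neg_injective (heinj hab)
  obtain ⟨psi, hpsi_apply⟩ : ∃ psi : AddChar F K, ∀ x, psi x = e (Algebra.trace (ZMod l) F x) :=
    ⟨e.compAddMonoidHom (Algebra.trace (ZMod l) F).toAddMonoidHom, fun x => rfl⟩
  have hpsi1 : psi ≠ 1 := by
    intro hcon
    have hnd : ∃ w : F, Algebra.trace (ZMod l) F (1 * w) ≠ 0 := by
      by_contra hcon
      push Not at hcon
      have h1 := (traceForm_nondegenerate (ZMod l) F).1 (1 : F) (fun w => by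
        rw [Algebra.traceForm_apply]; exact hcon w)
      exact one_ne_zero h1
    obtain ⟨w, hw⟩ := hnd
    rw [one_mul] at hw
    apply hw
    apply he1
    rw [← hpsi_apply, hcon]
    rfl
  have hprim : psi.IsPrimitive := AddChar.IsPrimitive.of_ne_one hpsi1
  obtain ⟨hat, hhat⟩ : ∃ hat : F → K, ∀ y, hat y = ∑ a, H a * psi (y * a) := ⟨_, fun y => rfl⟩
  have hconv : ∀ y, hat y * eta psi y = 0 := by
    intro y
    have : hat y * eta psi y = ∑ t, psi (y * t) * ∑ s ∈ nzSquares F, H (t - s) := by
      rw [hhat, eta, sum_mul_sum, sum_comm]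
      have : ∀ t, psi (y * t) * ∑ s ∈ nzSquares F, H (t - s)
          = ∑ s ∈ nzSquares F, psi (y * t) * H (t - s) := fun t => mul_sum _ _ _
      simp only [this]
      rw [sum_comm (s := univ) (t := nzSquares F)]
      apply sum_congr rfl
      intro s _
      rw [← Equiv.sum_comp (Equiv.subRight s)]
      apply sum_congr rfl
      intro t _
      simp only [Equiv.subRight_apply]
      have : psi (y * t) = psi (y * (t - s)) * psi (y * s) := by
        rw [← AddChar.map_add_eq_mul]; congr 1; ring
      rw [this]; ring
    rw [this]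
    apply sum_eq_zero
    intro t _
    rw [hHsum t, mul_zero]
  have hcardK : ((Fintype.card F : ℕ) : K) = -1 := by
    rw [hlam]; push_cast; linear_combination 4 * hK
  have haddK := eta_add hq psi hpsi1
  have hinv : ∀ a, -H a = ∑ y, hat y * psi (-(y * a)) := by
    intro a
    have h1 : ∑ y, hat y * psi (-(y * a)) = ∑ b, H b * ∑ y, psi (y * (b - a)) := by
      have e1 : ∀ y, hat y * psi (-(y * a)) = ∑ b, H b * psi (y * (b - a)) := by
        intro y
        rw [hhat, sum_mul]
        apply sum_congr rfl
        intro b _
        rw [mul_assoc, ← AddChar.map_add_eq_mul]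
        congr 2
        ring
      simp only [e1]
      rw [sum_comm]
      apply sum_congr rfl
      intro b _
      rw [mul_sum]
    rw [h1]
    rw [sum_congr rfl (fun b _ => by rw [AddChar.sum_mulShift (b - a) hprim])]
    rw [sum_eq_single a]
    · simp only [sub_self, if_true]
      rw [hcardK]; ring
    · intro b _ hb
      rw [if_neg (sub_ne_zero.mpr hb)]
      simp
    · intro hcon; exact absurd (mem_univ a) hcon
  have heta0 : eta psi 0 ≠ 0 := by
    have hk : (nzSquares F).card = 2 * lam + 1 := by
      have := card_nz (F := F) hq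
      omega
    have : eta psi 0 = -1 := by
      simp only [eta, zero_mul, AddChar.map_zero_eq_one, sum_const, nsmul_eq_mul, mul_one, hk]
      push_cast
      linear_combination 2 * hK
    rw [this]
    exact neg_ne_zero.mpr one_ne_zero
  have hhat0 : hat 0 = 0 := by
    have := hconv 0
    exact (mul_eq_zero.mp this).resolve_right heta0
  have hmulK := eta_mul hq psi hpsi1 lam hlam
  rw [hK] at hmulK
  by_cases hcase : eta psi 1 = 0
  · -- hat vanishes on minus squares
    have hne : eta psi (-1) ≠ 0 := by
      intro hcon
      rw [hcase, hcon, add_zero] at haddK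
      exact one_ne_zero (neg_eq_zero.mp haddK.symm)
    have hv : ∀ y ∈ nzSquares F, hat (-y) = 0 := by
      intro y hy
      have h1 := hconv (-y)
      have h2 : eta psi (-y) = eta psi (-1) := by
        have := eta_scale psi (-1) y hy
        rwa [neg_one_mul] at this
      rw [h2] at h1
      exact (mul_eq_zero.mp h1).resolve_right hne
    have hexp : ∀ a, -H a = ∑ y ∈ nzSquares F, hat y * psi (-(y * a)) := by
      intro a
      rw [hinv a, sum_split hq, hhat0]
      rw [sum_eq_zero (s := nzSquares F) (f := fun x => hat (-x) * psi (-(-x * a)))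
        (fun x hx => by rw [hv x hx, zero_mul])]
      simp
    have hz := hA e⁻¹ heinj' hat (by
      intro a ha
      have := hexp a
      rw [hH0 a ha, neg_zero] at this
      rw [this]
      apply sum_congr rfl
      intro y _
      rw [AddChar.inv_apply, hpsi_apply, ← map_neg (Algebra.trace (ZMod l) F)])
    intro a
    have := hexp a
    rw [sum_eq_zero (fun y hy => by rw [hz y hy, zero_mul])] at this
    exact neg_eq_zero.mp this
  · have hv : ∀ y ∈ nzSquares F, hat y = 0 := by
      intro y hy
      have h1 := hconv y
      have h2 : eta psi y = eta psi 1 := by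
        have := eta_scale psi 1 y hy
        rwa [one_mul] at this
      rw [h2] at h1
      exact (mul_eq_zero.mp h1).resolve_right hcase
    have hexp : ∀ a, -H a = ∑ y ∈ nzSquares F, hat (-y) * psi (y * a) := by
      intro a
      rw [hinv a, sum_split hq, hhat0]
      rw [sum_eq_zero (s := nzSquares F) (f := fun x => hat x * psi (-(x * a)))
        (fun x hx => by rw [hv x hx, zero_mul])]
      simp
    have hz := hA e heinj (fun y => hat (-y)) (by
      intro a ha
      have := hexp a
      rw [hH0 a ha, neg_zero] at this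
      rw [this]
      apply sum_congr rfl
      intro y _
      rw [hpsi_apply])
    intro a
    have := hexp a
    rw [sum_eq_zero (fun y hy => by rw [hz y hy, zero_mul])] at this
    exact neg_eq_zero.mp this

/-- Key fact for one prime -/
lemma key_prime (l : ℕ) [Fact l.Prime] [Algebra (ZMod l) F] (A : Finset F)
    (lam : ℕ) (hlam : Fintype.card F = 4 * lam + 3)
    (hA : ∀ (K : Type) [Field K] (e : AddChar (ZMod l) K), Function.Injective e →
        ∀ c : F → K, (∀ a ∈ A, ∑ y ∈ nzSquares F, c y * e (Algebra.trace (ZMod l) F (y * a)) = 0) →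
          ∀ y ∈ nzSquares F, c y = 0)
    (p : ℕ) (hp : p.Prime) (hpq : p ∣ lam + 1) (hlp : ¬ p ∣ l)
    (h : F → ℤ) (h0 : ∀ a ∈ A, h a = 0)
    (hsum : ∀ t, (p : ℤ) ∣ ∑ s ∈ nzSquares F, h (t - s)) : ∀ a, (p : ℤ) ∣ h a := by
  classical
  have : Fact p.Prime := ⟨hp⟩
  have : NeZero l := ⟨(Fact.out : l.Prime).ne_zero⟩
  have hl0 : (l : ZMod p) ≠ 0 := by
    intro hcon
    exact hlp ((ZMod.natCast_eq_zero_iff _ _).mp hcon)
  have : NeZero ((l : ℕ) : ZMod p) := ⟨hl0⟩
  have hz : IsPrimitiveRoot (IsCyclotomicExtension.zeta l (ZMod p) (CyclotomicField l (ZMod p))) l :=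
    IsCyclotomicExtension.zeta_spec l (ZMod p) _
  have he1 : ∀ a, (AddChar.zmodChar l ((IsPrimitiveRoot.iff_def _ l).mp hz).left) a = 1 → a = 0 := by
    intro a ha
    exact (AddChar.IsPrimitive.zmod_char_eq_one_iff l
      (AddChar.zmodChar_primitive_of_primitive_root l hz) a).mp ha
  have heinj : Function.Injective (AddChar.zmodChar l ((IsPrimitiveRoot.iff_def _ l).mp hz).left) := by
    intro a b hab
    have : (AddChar.zmodChar l ((IsPrimitiveRoot.iff_def _ l).mp hz).left) (a - b) = 1 := by
      rw [sub_eq_add_neg, AddChar.map_add_eq_mul, hab, ← AddChar.map_add_eq_mul, add_neg_cancel,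
        AddChar.map_zero_eq_one]
    exact sub_eq_zero.mp (he1 _ this)
  have hcast : ∀ x : ℤ, ((x : ℤ) : CyclotomicField l (ZMod p)) = 0 ↔ (p : ℤ) ∣ x := by
    intro x
    rw [← ZMod.intCast_zmod_eq_zero_iff_dvd, ← map_intCast (algebraMap (ZMod p) (CyclotomicField l (ZMod p)))]
    constructor
    · intro hx
      rw [← map_zero (algebraMap (ZMod p) (CyclotomicField l (ZMod p)))] at hx
      exact (algebraMap (ZMod p) (CyclotomicField l (ZMod p))).injective hx
    · intro hx; rw [hx, map_zero]
  have hHall := key_field hq l A lam hlam (CyclotomicField l (ZMod p))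
    (fun e he c hc => hA _ e he c hc)
    (by
      have := (hcast ((lam : ℤ) + 1)).mpr (by exact_mod_cast hpq)
      push_cast at this
      exact this)
    _ heinj (fun a => ((h a : ℤ) : CyclotomicField l (ZMod p)))
    (fun a ha => by simp only [h0 a ha, Int.cast_zero])
    (fun t => by
      have := (hcast _).mpr (hsum t)
      push_cast at this
      exact this)
  intro a
  exact (hcast _).mp (hHall a)

end fourier

/-! ### Designs -/

section design
variable {V : Type u} [Fintype V] [DecidableEq V]

/-- variance argument: any two blocks of a Hadamard type design meet in lam points -/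
lemma symm_inter {I : Type*} [Fintype I] [DecidableEq I] (f : I → Finset V) (lam : ℕ)
    (hv : Fintype.card V = 4 * lam + 3) (hlam : 1 ≤ lam)
    (hk : ∀ i, (f i).card = 2 * lam + 1)
    (h2 : ∀ x y, x ≠ y → ((univ : Finset I).filter (fun i => x ∈ f i ∧ y ∈ f i)).card = lam) :
    Fintype.card I = Fintype.card V ∧ ∀ i j, i ≠ j → (f i ∩ f j).card = lam := by
  -- incidence function
  let c : V → I → ℤ := fun x i => if x ∈ f i then 1 else 0
  have hcc : ∀ x i, c x i * c x i = c x i := by intro x i; simp only [c]; split_ifs <;> simp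
  have hcard : ∀ i, ∑ x, c x i = 2 * lam + 1 := by
    intro i
    have := hk i
    simp only [c, sum_boole, filter_univ_mem, this]
    push_cast; ring
  have hpair : ∀ x y, x ≠ y → ∑ i, c x i * c y i = lam := by
    intro x y hxy
    rw [← h2 x y hxy, card_filter]
    push_cast
    apply sum_congr rfl
    intro i _
    simp only [c]
    split_ifs <;> simp_all
  have hr : ∀ x, ∑ i, c x i = 2 * lam + 1 := by
    intro x
    have e1 : ∑ y, ∑ i, c x i * c y i = ∑ i, c x i * (2 * lam + 1) := by
      rw [sum_comm]
      apply sum_congr rfl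
      intro i _
      rw [← mul_sum, hcard i]
    have e2 : ∑ y, ∑ i, c x i * c y i = ∑ i, c x i + (4 * lam + 2) * lam := by
      rw [← add_sum_erase univ _ (mem_univ x)]
      congr 1
      · apply sum_congr rfl
        intro i _; exact hcc x i
      · rw [sum_congr rfl (fun y hy => hpair x y (ne_of_mem_erase hy).symm)]
        rw [sum_const, card_erase_of_mem (mem_univ x), card_univ, hv]
        simp only [Nat.add_one_sub_one, nsmul_eq_mul]
        push_cast
        ring
    rw [e1, ← sum_mul] at e2
    have hl : (0 : ℤ) < lam := by exact_mod_cast hlam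
    have e3 : (∑ i, c x i - (2 * lam + 1)) * (2 * lam) = 0 := by linear_combination e2
    rcases mul_eq_zero.mp e3 with h | h
    · linear_combination h
    · exfalso; linarith
  have hb : (Fintype.card I : ℤ) = 4 * lam + 3 := by
    have e1 : ∑ x, ∑ i, c x i = (4 * lam + 3) * (2 * lam + 1) := by
      rw [sum_congr rfl (fun x _ => hr x), sum_const, card_univ, hv, nsmul_eq_mul]
      push_cast; ring
    rw [sum_comm, sum_congr rfl (fun i _ => hcard i), sum_const, card_univ, nsmul_eq_mul] at e1
    have hl : (0 : ℤ) < 2 * lam + 1 := by positivity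
    exact mul_right_cancel₀ hl.ne' e1
  refine ⟨by rw [hv]; exact_mod_cast hb, ?_⟩
  intro i j hij
  -- m j
  let m : I → ℤ := fun j => ∑ x ∈ f i, c x j
  have hm : ∀ j, m j = ((f i ∩ f j).card : ℤ) := by
    intro j
    simp only [m, c, sum_boole]
    congr 2
  have hsum1 : ∑ j, m j = (2 * lam + 1) * (2 * lam + 1) := by
    simp only [m]
    rw [sum_comm, sum_congr rfl (fun x _ => hr x), sum_const, hk i, nsmul_eq_mul]
    push_cast; ring
  have hsum2 : ∑ j, m j * m j
      = (2 * lam + 1) * (2 * lam + 1) + (2 * lam + 1) * (2 * lam) * lam := by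
    have e1 : ∀ j, m j * m j = ∑ x ∈ f i, ∑ y ∈ f i, c x j * c y j := by
      intro j; simp only [m]; rw [sum_mul_sum]
    simp only [e1]
    rw [sum_comm]
    have e2 : ∀ x ∈ f i, ∑ j, ∑ y ∈ f i, c x j * c y j = (2 * lam + 1) + (2 * lam) * lam := by
      intro x hx
      rw [sum_comm, ← add_sum_erase _ _ hx]
      congr 1
      · rw [sum_congr rfl (fun j _ => hcc x j)]; exact hr x
      · rw [sum_congr rfl (fun y hy => hpair x y (ne_of_mem_erase hy).symm)]
        rw [sum_const, card_erase_of_mem hx, hk i]
        simp
    rw [sum_congr rfl e2, sum_const, hk i, nsmul_eq_mul]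
    push_cast; ring
  have hmi : m i = 2 * lam + 1 := by
    rw [hm i, inter_self, hk i]; push_cast; ring
  have hvar : ∑ j ∈ univ.erase i, (m j - lam) ^ 2 = 0 := by
    have e1 : ∑ j, (m j - lam) ^ 2 = ∑ j, m j * m j - 2 * lam * ∑ j, m j
        + (Fintype.card I : ℤ) * (lam * lam) := by
      rw [mul_sum, ← sum_sub_distrib]
      rw [show (Fintype.card I : ℤ) * (lam * lam) = ∑ _j : I, ((lam : ℤ) * lam) by
        rw [sum_const, card_univ, nsmul_eq_mul]]
      rw [← sum_add_distrib]
      apply sum_congr rfl
      intro j _; ring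
    rw [← add_sum_erase univ _ (mem_univ i), hmi] at e1
    rw [hsum1, hsum2, hb] at e1
    linear_combination e1
  have h0 := (sum_eq_zero_iff_of_nonneg (fun j _ => sq_nonneg _)).mp hvar j
    (mem_erase.mpr ⟨hij.symm, mem_univ j⟩)
  have h1 : m j = lam := by
    have := pow_eq_zero_iff (n := 2) (by norm_num) |>.mp h0
    linarith
  rw [hm j] at h1
  exact_mod_cast h1

end design

section main
variable {F : Type u} [Field F] [Fintype F] [DecidableEq F]

lemma mem_qrBlock {a x : F} : x ∈ qrBlock a ↔ x - a ∈ nzSquares F := by
  simp only [qrBlock, mem_image]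
  constructor
  · rintro ⟨y, hy, rfl⟩
    rwa [add_sub_cancel_right]
  · intro h
    exact ⟨x - a, h, sub_add_cancel x a⟩

lemma card_qrBlock (a : F) : (qrBlock a).card = (nzSquares F).card := by
  unfold qrBlock
  rw [card_image_of_injective]
  exact add_left_injective a

variable (hq : Fintype.card F % 4 = 3)
include hq

lemma diff_count_zero : ((nzSquares F ×ˢ nzSquares F).filter (fun p => p.1 - p.2 = 0)).card
      = (nzSquares F).card := by
  have : (nzSquares F ×ˢ nzSquares F).filter (fun p => p.1 - p.2 = 0)
      = (nzSquares F).image (fun x => (x, x)) := by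
    ext p
    simp only [mem_filter, mem_product, mem_image]
    constructor
    · rintro ⟨⟨h1, h2⟩, h3⟩
      exact ⟨p.1, h1, Prod.ext rfl (sub_eq_zero.mp h3)⟩
    · rintro ⟨x, hx, rfl⟩
      exact ⟨⟨hx, hx⟩, sub_self _⟩
  rw [this, card_image_of_injective]
  intro x y h
  exact (Prod.mk.inj h).1

/-- the number of pairs, as a single count over `s` -/
lemma shift_count (lam : ℕ) (hlam : Fintype.card F = 4 * lam + 3) (d : F) :
    ((nzSquares F).filter (fun s => d + s ∈ nzSquares F)).card
      = if d = 0 then 2 * lam + 1 else lam := by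
  have h1 : ((nzSquares F).filter (fun s => d + s ∈ nzSquares F)).card
      = ((nzSquares F ×ˢ nzSquares F).filter (fun p => p.1 - p.2 = d)).card := by
    apply card_bij (fun s _ => (d + s, s))
    · intro s hs
      simp only [mem_filter, mem_product] at hs ⊢
      exact ⟨⟨hs.2, hs.1⟩, by ring⟩
    · intro s _ s' _ h
      exact (Prod.mk.inj h).2
    · intro p hp
      simp only [mem_filter, mem_product] at hp
      refine ⟨p.2, ?_, ?_⟩
      · simp only [mem_filter]
        refine ⟨hp.1.2, ?_⟩
        rw [← hp.2, sub_add_cancel]; exact hp.1.1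
      · rw [← hp.2, sub_add_cancel]
  rw [h1]
  split_ifs with hd
  · subst hd
    rw [diff_count_zero hq]
    have := card_nz (F := F) hq
    omega
  · have := diff_count (F := F) hq d hd
    omega

omit hq in
lemma sum_ite_eq_sum_nz (g : F → ℤ) (x : F) :
    ∑ a, (if x ∈ qrBlock a then g a else 0) = ∑ s ∈ nzSquares F, g (x - s) := by
  rw [← sum_filter]
  apply sum_bij (fun a _ => x - a)
  · intro a ha
    simp only [mem_filter] at ha
    exact mem_qrBlock.mp ha.2
  · intro a _ a' _ h
    exact sub_right_injective h
  · intro s hs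
    refine ⟨x - s, ?_, by ring⟩
    simp only [mem_filter, mem_univ, true_and]
    rw [mem_qrBlock]
    have : x - (x - s) = s := by ring
    rwa [this]
  · intro a _
    congr 1; ring

/-- a block that meets all the given translates in lam points is itself a translate -/
lemma block_is_translate (A : Finset F) (lam : ℕ) (hlam : Fintype.card F = 4 * lam + 3)
    (hkey : ∀ p : ℕ, p.Prime → p ∣ lam + 1 → ∀ h : F → ℤ, (∀ a ∈ A, h a = 0) →
      (∀ t, (p : ℤ) ∣ ∑ s ∈ nzSquares F, h (t - s)) → ∀ a, (p : ℤ) ∣ h a)
    (X : Finset F) (hX : X.card = 2 * lam + 1)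
    (hXA : ∀ a ∈ A, (X ∩ qrBlock a).card = lam) : ∃ a, X = qrBlock a := by
  obtain ⟨g, hg⟩ : ∃ g : F → ℤ, ∀ a, g a = ((X ∩ qrBlock a).card : ℤ) - lam := ⟨_, fun a => rfl⟩
  have hg0 : ∀ a ∈ A, g a = 0 := by
    intro a ha
    rw [hg a, hXA a ha, sub_self]
  have hk : (nzSquares F).card = 2 * lam + 1 := by
    have := card_nz (F := F) hq
    omega
  -- convolution
  have hcardsum : ∀ a, ((X ∩ qrBlock a).card : ℤ) = ∑ x ∈ X, if x ∈ qrBlock a then (1 : ℤ) else 0 := by
    intro a
    rw [sum_boole]
    congr 2
  have hconv : ∀ t, ∑ s ∈ nzSquares F, g (t - s) = if t ∈ X then ((lam : ℤ) + 1) else 0 := by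
    intro t
    have e1 : ∑ s ∈ nzSquares F, g (t - s)
        = ∑ x ∈ X, ∑ s ∈ nzSquares F, (if (x - t) + s ∈ nzSquares F then (1 : ℤ) else 0)
          - (2 * lam + 1) * lam := by
      simp only [hg, hcardsum]
      rw [sum_sub_distrib, sum_comm]
      congr 1
      · apply sum_congr rfl
        intro x _
        apply sum_congr rfl
        intro s _
        have : x ∈ qrBlock (t - s) ↔ (x - t) + s ∈ nzSquares F := by
          rw [mem_qrBlock]
          have : x - (t - s) = (x - t) + s := by ring
          rw [this]
        simp only [this]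
      · rw [sum_const, hk, nsmul_eq_mul]; push_cast; ring
    have e2 : ∀ x, ∑ s ∈ nzSquares F, (if (x - t) + s ∈ nzSquares F then (1 : ℤ) else 0)
        = lam + if x = t then ((lam : ℤ) + 1) else 0 := by
      intro x
      rw [sum_boole, shift_count hq lam hlam (x - t)]
      by_cases hxt : x = t
      · simp [hxt]; ring
      · simp [hxt, sub_ne_zero.mpr hxt]
    rw [e1, sum_congr rfl (fun x _ => e2 x), sum_add_distrib, sum_const, hX, sum_ite_eq']
    rw [nsmul_eq_mul]
    push_cast
    ring
  -- divisibility
  have hdiv : ∀ m : ℕ, m ∣ lam + 1 → ∀ a, (m : ℤ) ∣ g a := by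
    intro m
    induction m using induction_on_primes with
    | zero => intro h; simp at h
    | one => intro _ a; simp
    | prime_mul p m hp ih =>
      intro hpm
      have hm : m ∣ lam + 1 := dvd_trans (dvd_mul_left m p) hpm
      have hpl : p ∣ lam + 1 := dvd_trans (dvd_mul_right p m) hpm
      have hm0 : (m : ℤ) ≠ 0 := by
        intro h
        have : m = 0 := by exact_mod_cast h
        rw [this] at hm; simp at hm
      choose h hh using ih hm
      have hdh := hkey p hp hpl h (by
        intro a ha
        have := hh a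
        rw [hg0 a ha] at this
        exact (mul_eq_zero.mp this.symm).resolve_left hm0) (by
        intro t
        have h1 := hconv t
        simp only [hh] at h1
        rw [← mul_sum] at h1
        split_ifs at h1 with ht
        · obtain ⟨w, hw⟩ := hpm
          refine ⟨w, ?_⟩
          apply mul_left_cancel₀ hm0
          rw [h1]
          have : ((lam + 1 : ℕ) : ℤ) = ((p * m * w : ℕ) : ℤ) := by rw [hw]
          push_cast at this
          rw [this]; ring
        · rw [(mul_eq_zero.mp h1).resolve_left hm0]
          exact dvd_zero _)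
      intro a
      obtain ⟨w, hw⟩ := hdh a
      refine ⟨w, ?_⟩
      rw [hh a, hw]; push_cast; ring
  choose g' hg' using hdiv (lam + 1) dvd_rfl
  have hn0 : ((lam : ℤ) + 1) ≠ 0 := by positivity
  have hg'' : ∀ a, g a = ((lam : ℤ) + 1) * g' a := by
    intro a; rw [hg' a]; push_cast; ring
  have hconv' : ∀ t, ∑ s ∈ nzSquares F, g' (t - s) = if t ∈ X then 1 else 0 := by
    intro t
    have h1 := hconv t
    simp only [hg''] at h1
    rw [← mul_sum] at h1
    apply mul_left_cancel₀ hn0
    rw [h1]
    split_ifs <;> ring
  have hsumg : ∑ a, g a = (lam : ℤ) + 1 := by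
    simp only [hg, hcardsum]
    rw [sum_sub_distrib, sum_comm]
    have : ∀ x ∈ X, ∑ a, (if x ∈ qrBlock a then (1 : ℤ) else 0) = 2 * lam + 1 := by
      intro x _
      rw [sum_ite_eq_sum_nz (fun _ => 1) x, sum_const, hk]
      simp
    rw [sum_congr rfl this, sum_const, sum_const, hX, card_univ, hlam]
    simp only [nsmul_eq_mul]
    push_cast
    ring
  have hsumg' : ∑ a, g' a = 1 := by
    simp only [hg''] at hsumg
    rw [← mul_sum] at hsumg
    apply mul_left_cancel₀ hn0
    rw [hsumg, mul_one]
  have hsq : ∑ a, g a * g a = ((lam : ℤ) + 1) * (lam + 1) := by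
    have e1 : ∀ a, g a * g a = ∑ x ∈ X, (if x ∈ qrBlock a then g a else 0) - lam * g a := by
      intro a
      have : g a * g a = (((X ∩ qrBlock a).card : ℤ) - lam) * g a := by rw [← hg a]
      rw [this, hcardsum, sub_mul, sum_mul]
      congr 1
      apply sum_congr rfl
      intro x _
      split_ifs <;> simp
    simp only [e1]
    rw [sum_sub_distrib, sum_comm, ← mul_sum, hsumg]
    have e2 : ∀ x ∈ X, ∑ a, (if x ∈ qrBlock a then g a else 0) = (lam : ℤ) + 1 := by
      intro x hx
      rw [sum_ite_eq_sum_nz g x, hconv x, if_pos hx]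
    rw [sum_congr rfl e2, sum_const, hX, nsmul_eq_mul]
    push_cast; ring
  have hsq' : ∑ a, g' a * g' a = 1 := by
    have : ((lam : ℤ) + 1) * (lam + 1) * ∑ a, g' a * g' a = ((lam : ℤ) + 1) * (lam + 1) * 1 := by
      have h2 : ∑ a, g a * g a = ((lam : ℤ) + 1) * (lam + 1) * ∑ a, g' a * g' a := by
        rw [mul_sum]
        apply sum_congr rfl
        intro a _
        rw [hg'' a]; ring
      rw [← h2, hsq, mul_one]
    exact mul_left_cancel₀ (mul_ne_zero hn0 hn0) this
  -- exactly one nonzero value
  obtain ⟨a0, ha0⟩ : ∃ a0, g' a0 ≠ 0 := by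
    by_contra hcon
    push Not at hcon
    simp [hcon] at hsq'
  have hothers : ∀ a, a ≠ a0 → g' a = 0 := by
    have e1 : g' a0 * g' a0 + ∑ a ∈ univ.erase a0, g' a * g' a = 1 := by
      rw [add_sum_erase univ (fun a => g' a * g' a) (mem_univ a0)]; exact hsq'
    have e2 : 1 ≤ g' a0 * g' a0 := by
      have : 0 < g' a0 * g' a0 := mul_self_pos.mpr ha0
      linarith
    have e3 : ∑ a ∈ univ.erase a0, g' a * g' a = 0 :=
      le_antisymm (by linarith) (sum_nonneg (fun a _ => mul_self_nonneg _))
    intro a ha
    have := (sum_eq_zero_iff_of_nonneg (fun a _ => mul_self_nonneg (g' a))).mp e3 a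
      (mem_erase.mpr ⟨ha, mem_univ a⟩)
    exact mul_self_eq_zero.mp this
  have hone : g' a0 = 1 := by
    rw [sum_eq_single a0 (fun a _ ha => hothers a ha) (fun h => absurd (mem_univ a0) h)] at hsumg'
    exact hsumg'
  refine ⟨a0, ?_⟩
  ext t
  have h1 := hconv' t
  rw [← sum_ite_eq_sum_nz g' t] at h1
  rw [sum_eq_single a0 (fun a _ ha => by rw [hothers a ha]; simp)
    (fun h => absurd (mem_univ a0) h), hone] at h1
  constructor
  · intro ht
    by_contra hcon
    rw [if_pos ht, if_neg hcon] at h1
    exact zero_ne_one h1
  · intro ht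
    by_contra hcon
    rw [if_neg hcon, if_pos ht] at h1
    exact one_ne_zero h1


lemma qrDesign_isDesign (lam : ℕ) (hlam : Fintype.card F = 4 * lam + 3) :
    IsDesign 2 (2 * lam + 1) lam (qrDesign F) := by
  have hk : (nzSquares F).card = 2 * lam + 1 := by
    have := card_nz (F := F) hq
    omega
  constructor
  · intro B hB
    obtain ⟨a, _, rfl⟩ := Multiset.mem_map.mp hB
    rw [card_qrBlock, hk]
  · intro T hT
    obtain ⟨x, y, hxy, rfl⟩ := Finset.card_eq_two.mp hT
    have h1 : ((qrDesign F).filter (fun B => {x, y} ⊆ B)).card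
        = ((univ : Finset F).filter (fun a => {x, y} ⊆ qrBlock a)).card := by
      unfold qrDesign
      rw [Multiset.filter_map, Multiset.card_map]
      rfl
    rw [h1]
    have h2 : ((univ : Finset F).filter (fun a => {x, y} ⊆ qrBlock a)).card
        = ((nzSquares F).filter (fun s => (x - y) + s ∈ nzSquares F)).card := by
      apply card_bij (fun a _ => y - a)
      · intro a ha
        simp only [mem_filter, mem_univ, true_and, insert_subset_iff, singleton_subset_iff,
          mem_qrBlock] at ha ⊢
        refine ⟨ha.2, ?_⟩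
        have : x - y + (y - a) = x - a := by ring
        rw [this]; exact ha.1
      · intro a _ a' _ h
        exact sub_right_injective h
      · intro s hs
        simp only [mem_filter] at hs
        refine ⟨y - s, ?_, by ring⟩
        simp only [mem_filter, mem_univ, true_and, insert_subset_iff, singleton_subset_iff,
          mem_qrBlock]
        constructor
        · have : x - (y - s) = x - y + s := by ring
          rw [this]; exact hs.2
        · have : y - (y - s) = s := by ring
          rw [this]; exact hs.1
    rw [h2, shift_count hq lam hlam (x - y), if_neg (sub_ne_zero.mpr hxy)]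

/-- The main construction. -/
lemma exists_defining (lam : ℕ) (hlam : Fintype.card F = 4 * lam + 3) (hlam1 : 1 ≤ lam) :
    ∃ A : Finset F, A.card ≤ 2 * lam + 1 ∧
      IsDefiningSet 2 (2 * lam + 1) lam (qrDesign F) (A.val.map qrBlock) := by
  classical
  have : Fact (ringChar F).Prime := ⟨CharP.char_is_prime F _⟩
  letI : Algebra (ZMod (ringChar F)) F := ZMod.algebra _ _
  have hk : (nzSquares F).card = 2 * lam + 1 := by
    have := card_nz (F := F) hq
    omega
  obtain ⟨A, hAcard, hA⟩ := exists_infoset F (ringChar F) (nzSquares F)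
  refine ⟨A, by rw [← hk]; exact hAcard, ?_, ?_⟩
  · exact Multiset.map_le_map (Finset.val_le_iff.mpr (subset_univ A))
  · intro E hE hSE
    have hkey : ∀ p : ℕ, p.Prime → p ∣ lam + 1 → ∀ h : F → ℤ, (∀ a ∈ A, h a = 0) →
      (∀ t, (p : ℤ) ∣ ∑ s ∈ nzSquares F, h (t - s)) → ∀ a, (p : ℤ) ∣ h a := by
      intro p hp hpl h h0 hs
      refine key_prime hq (ringChar F) A lam hlam hA p hp hpl ?_ h h0 hs
      intro hpc
      have h1 : p = ringChar F := (Nat.prime_dvd_prime_iff_eq hp (Fact.out)).mp hpc
      have h2 : ringChar F ∣ Fintype.card F :=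
        (ringChar.spec F _).mp (FiniteField.cast_card_eq_zero F)
      rw [← h1] at h2
      have h3 : p ∣ 4 * (lam + 1) := dvd_mul_of_dvd_right hpl 4
      have h4 : p ∣ 1 := by
        have h5 : 4 * (lam + 1) = Fintype.card F + 1 := by omega
        rw [h5] at h3
        exact (Nat.dvd_add_right h2).mp h3
      exact hp.one_lt.ne' (Nat.dvd_one.mp h4)
    -- index the blocks
    obtain ⟨hEk, hE2⟩ := hE
    let I := E.ToType
    let f : I → Finset F := fun i => i.1
    have hf : (univ : Finset I).val.map f = E := Multiset.map_univ_coe E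
    have hfmem : ∀ i, f i ∈ E := by
      intro i
      rw [← hf]
      exact Multiset.mem_map_of_mem f (mem_univ i)
    have h2 : ∀ x y : F, x ≠ y →
        ((univ : Finset I).filter (fun i => x ∈ f i ∧ y ∈ f i)).card = lam := by
      intro x y hxy
      rw [← hE2 {x, y} (Finset.card_pair hxy)]
      have h1 : (E.filter (fun B => {x, y} ⊆ B)).card
          = (((univ : Finset I).val.map f).filter (fun B => {x, y} ⊆ B)).card := by rw [hf]
      rw [h1, Multiset.filter_map, Multiset.card_map]
      have h3 : (univ : Finset I).filter (fun i => x ∈ f i ∧ y ∈ f i)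
          = (univ : Finset I).filter (fun i => {x, y} ⊆ f i) := by
        ext i
        simp [insert_subset_iff]
      rw [h3]
      rfl
    obtain ⟨hI, hinter⟩ := symm_inter f lam hlam hlam1 (fun i => hEk _ (hfmem i)) h2
    -- all blocks are translates
    have htrans : ∀ i, ∃ a, f i = qrBlock a := by
      intro i
      by_cases hi : ∃ a ∈ A, f i = qrBlock a
      · obtain ⟨a, _, ha⟩ := hi
        exact ⟨a, ha⟩
      · push Not at hi
        apply block_is_translate hq A lam hlam hkey (f i) (hEk _ (hfmem i))
        intro a ha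
        have hmem : qrBlock a ∈ E :=
          Multiset.mem_of_le hSE (Multiset.mem_map_of_mem qrBlock ha)
        rw [← hf] at hmem
        obtain ⟨j, _, hj⟩ := Multiset.mem_map.mp hmem
        have hij : i ≠ j := by
          rintro rfl
          exact hi a ha hj
        rw [← hj]
        exact hinter i j hij
    choose b hb using htrans
    have hbinj : Function.Injective b := by
      intro i j hij
      by_contra hne
      have h1 := hinter i j hne
      rw [hb i, hb j, hij, inter_self, card_qrBlock, hk] at h1
      omega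
    have hbbij : Function.Bijective b :=
      (Fintype.bijective_iff_injective_and_card b).mpr ⟨hbinj, hI⟩
    rw [← hf]
    have h3 : f = qrBlock ∘ b := funext hb
    rw [h3, ← Multiset.map_map]
    unfold qrDesign
    congr 1
    have h4 : ((univ : Finset I).map ⟨b, hbinj⟩) = (univ : Finset F) := by
      ext x
      simp only [mem_map, mem_univ, true_and, Function.Embedding.coeFn_mk, iff_true]
      exact hbbij.2 x
    rw [← h4]
    rfl

end main

/-- **Kunkle, Sarvate, Seberry.**  For every finite field `F` whose order `q` satisfies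
`q % 4 = 3` and `q ≥ 7`, the quadratic residue design `D_q` is a `2-(q,(q-1)/2,(q-3)/4)` design,
it has a defining set of at most `(q-1)/2` blocks, and `mu_q ≤ 1/2`. -/
theorem result (F : Type u) [Field F] [Fintype F] [DecidableEq F]
    (h3 : Fintype.card F % 4 = 3) (h7 : 7 ≤ Fintype.card F) :
    IsDesign 2 ((Fintype.card F - 1) / 2) ((Fintype.card F - 3) / 4) (qrDesign F) ∧
    (∃ S : Multiset (Finset F),
      IsDefiningSet 2 ((Fintype.card F - 1) / 2) ((Fintype.card F - 3) / 4) (qrDesign F) S ∧
        Multiset.card S ≤ (Fintype.card F - 1) / 2) ∧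
    mu F ≤ 1 / 2 := by
  obtain ⟨lam, hlam⟩ : ∃ lam : ℕ, Fintype.card F = 4 * lam + 3 :=
    ⟨Fintype.card F / 4, by omega⟩
  have hk : (Fintype.card F - 1) / 2 = 2 * lam + 1 := by omega
  have hl : (Fintype.card F - 3) / 4 = lam := by omega
  obtain ⟨A, hA1, hA2⟩ := exists_defining (F := F) h3 lam hlam (by omega)
  have hcardS : Multiset.card (A.val.map (qrBlock (F := F))) ≤ 2 * lam + 1 := by
    rw [Multiset.card_map]; exact hA1
  refine ⟨?_, ?_, ?_⟩
  · rw [hk, hl]; exact qrDesign_isDesign h3 lam hlam
  · rw [hk, hl]
    exact ⟨A.val.map qrBlock, hA2, hcardS⟩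
  · unfold mu
    rw [hk, hl]
    have h1 : sInf {m : ℕ | ∃ S : Multiset (Finset F),
        IsDefiningSet 2 (2 * lam + 1) lam (qrDesign F) S ∧ Multiset.card S = m} ≤ 2 * lam + 1 := by
      refine le_trans (Nat.sInf_le ?_) hcardS
      exact ⟨A.val.map qrBlock, hA2, rfl⟩
    have h2 : (0 : ℝ) < (Fintype.card F : ℝ) := by
      have : 0 < Fintype.card F := by omega
      exact_mod_cast this
    rw [div_le_div_iff₀ h2 (by norm_num)]
    have h4 : ((sInf {m : ℕ | ∃ S : Multiset (Finset F),
        IsDefiningSet 2 (2 * lam + 1) lam (qrDesign F) S ∧ Multiset.card S = m} : ℕ) : ℝ)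
          ≤ ((2 * lam + 1 : ℕ) : ℝ) := by exact_mod_cast h1
    have h5 : ((2 * lam + 1 : ℕ) : ℝ) * 2 ≤ 1 * (Fintype.card F : ℝ) := by
      rw [hlam]; push_cast; linarith
    linarith

end Pool.Agent.Results.MP_616659_co.Main
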